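import Pool.Agent.MP_afae70_pr.LL.Lower

/-!
# The number of Ewens permutations needed for invariable generation has order `log log n`
-/

open Filter

namespace Pool.Agent.Results.MP_afae70_pr.ExactOrder

open Pool.Agent.Results.MP_afae70_pr.LogSuffices Pool.Agent.MP_afae70_pr.LL

/-- For `α > 1 / log 2` there are `0 < β < β'` such that at most `β log log n` independent
Ewens-`α` permutations invariably generate the symmetric group with probability tending to zero,
and at least `β' log log n` of them do so with probability tending to one. -/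
theorem result (α : ℝ) (hα : 1 / Real.log 2 < α) :
    ∃ β β' : ℝ, 0 < β ∧ β < β' ∧ ∀ N : ℕ → ℕ,
      ((∀ᶠ n : ℕ in atTop, (N n : ℝ) ≤ β * Real.log (Real.log n)) →
        Tendsto (fun n : ℕ => prob α n (N n)) atTop (nhds 0)) ∧
      ((∀ᶠ n : ℕ in atTop, β' * Real.log (Real.log n) ≤ (N n : ℝ)) →
        Tendsto (fun n : ℕ => prob α n (N n)) atTop (nhds 1)) := by
  have hα1 : 1 ≤ α := by
    refine le_trans ?_ hα.le
    rw [le_div_iff₀ (Real.log_pos (by norm_num))]
    linarith [Real.log_two_lt_d9]
  obtain ⟨β, hβ, h1⟩ := lower hα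
  obtain ⟨γ, hγ, h2⟩ := upper hα1
  exact ⟨β, β + γ, hβ, by linarith, fun N => ⟨h1 N, h2 _ (by linarith) N⟩⟩

/-- On the scale `log n` the probability tends to one, whatever the constant. -/
theorem log_scale (α : ℝ) (hα : 1 / Real.log 2 < α) (b : ℝ) (hb : 0 < b) :
    Tendsto (fun n : ℕ => prob α n ⌊b * Real.log n⌋₊) atTop (nhds 1) := by
  obtain ⟨β, β', h0, h1, h⟩ := result α hα
  apply (h _).2
  have hβ : 0 < β' := by linarith
  have hlog : Tendsto (fun n : ℕ => Real.log n) atTop atTop :=
    Real.tendsto_log_atTop.comp tendsto_natCast_atTop_atTop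
  filter_upwards [hlog.eventually (Real.isLittleO_log_id_atTop.bound
    (show 0 < b / (2 * β') by positivity)), hlog.eventually_ge_atTop (2 / b)] with n h2 h3
  have h4 := Nat.lt_floor_add_one (b * Real.log n)
  have h5 : 0 < Real.log n := lt_of_lt_of_le (by positivity) h3
  rw [div_le_iff₀' hb] at h3
  rw [Real.norm_eq_abs, Real.norm_eq_abs, id, abs_of_pos h5] at h2
  have h6 := mul_le_mul_of_nonneg_left ((le_abs_self _).trans h2) hβ.le
  have h7 : β' * (b / (2 * β') * Real.log n) = b * Real.log n / 2 := by field_simp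
  linarith

end Pool.Agent.Results.MP_afae70_pr.ExactOrder
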