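import Mathlib
import Pool.Agent.MP_afae70_pr.Primes

set_option autoImplicit false

open Finset Filter Equiv

namespace Pool.Agent.Results.MP_afae70_pr.LogSuffices

/-- The number of cycles of a permutation, fixed points counted as cycles of length one. -/
def numCycles {n : ℕ} (σ : Perm (Fin n)) : ℕ :=
  σ.cycleType.card + (univ.filter (fun x => σ x = x)).card

/-- The Ewens probability of a permutation. -/
noncomputable def ewens (α : ℝ) {n : ℕ} (σ : Perm (Fin n)) : ℝ :=
  α ^ numCycles σ / ∏ i ∈ range n, (α + i)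

/-- Invariable generation of the symmetric group. -/
def InvGen {n N : ℕ} (σ : Fin N → Perm (Fin n)) : Prop :=
  ∀ τ : Fin N → Perm (Fin n), Subgroup.closure (Set.range fun i => τ i * σ i * (τ i)⁻¹) = ⊤

open Classical in
/-- The probability that N independent Ewens permutations invariably generate. -/
noncomputable def prob (α : ℝ) (n N : ℕ) : ℝ :=
  ∑ σ : Fin N → Perm (Fin n), if InvGen σ then ∏ i, ewens α (σ i) else 0

open Pool.Agent.MP_afae70_pr

lemma numCycles_eq {n : ℕ} (σ : Perm (Fin n)) : numCycles σ = σ.partition.parts.card := by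
  rw [numCycles, Perm.parts_partition, Multiset.card_add, Multiset.card_replicate, ← card_compl]
  congr 2
  ext x
  simp

lemma ewens_nonneg {α : ℝ} (hα : 0 < α) {n : ℕ} (σ : Perm (Fin n)) : 0 ≤ ewens α σ :=
  div_nonneg (by positivity) (prod_nonneg fun i _ => by positivity)

lemma sum_ewens {α : ℝ} (hα : 0 < α) (n : ℕ) (F : Multiset ℕ → ℝ) :
    ∑ σ : Perm (Fin n), ewens α σ * F σ.partition.parts = EE α n F / hh α n := by
  have h1 := sum_perm_eq α n F
  have h2 : (n.factorial : ℝ) ≠ 0 := by positivity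
  have h3 := (hh_pos hα n).ne'
  simp only [ewens, numCycles_eq, ← factorial_mul_hh, div_mul_eq_mul_div, ← sum_div]
  rw [h1]
  field_simp

lemma sum_ewens_one {α : ℝ} (hα : 0 < α) (n : ℕ) : ∑ σ : Perm (Fin n), ewens α σ = 1 := by
  have := sum_ewens hα n (fun _ => 1)
  simp only [mul_one] at this
  rw [this]
  exact div_self (hh_pos hα n).ne'

open Classical in
lemma all_fail {α : ℝ} (hα : 0 < α) (n N : ℕ) (B : Multiset ℕ → Prop) [DecidablePred B] {δ : ℝ}
    (h : δ * hh α n ≤ EE α n (fun m => if B m then 1 else 0)) :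
    ∑ σ : Fin N → Perm (Fin n), (∏ i, ewens α (σ i)) *
      (if ∀ i, ¬ B (σ i).partition.parts then 1 else 0) ≤ Real.exp (-(δ * N)) := by
  have h1 : ∑ σ : Fin N → Perm (Fin n), (∏ i, ewens α (σ i)) *
      (if ∀ i, ¬ B (σ i).partition.parts then (1 : ℝ) else 0)
      = (∑ σ : Perm (Fin n), ewens α σ * (1 - if B σ.partition.parts then 1 else 0)) ^ N := by
    rw [Fintype.sum_pow]
    apply sum_congr rfl
    intro σ _
    rw [prod_mul_distrib]
    congr 1
    split_ifs with h
    · exact (prod_eq_one fun i _ => by simp [h i]).symm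
    · push Not at h
      obtain ⟨i, hi⟩ := h
      exact (prod_eq_zero (mem_univ i) (by simp [hi])).symm
  have h2 : ∑ σ : Perm (Fin n), ewens α σ * (1 - if B σ.partition.parts then 1 else 0)
      ≤ 1 - δ := by
    simp_rw [mul_sub, mul_one]
    rw [sum_sub_distrib, sum_ewens_one hα, sum_ewens hα n (fun m => if B m then 1 else 0)]
    have := (le_div_iff₀ (hh_pos hα n)).2 h
    linarith
  have h3 : 0 ≤ ∑ σ : Perm (Fin n), ewens α σ * (1 - if B σ.partition.parts then 1 else 0) :=
    sum_nonneg fun σ _ => mul_nonneg (ewens_nonneg hα σ) (by split_ifs <;> norm_num)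
  rw [h1, show -(δ * N) = N * -δ by ring, Real.exp_nat_mul]
  apply pow_le_pow_left₀ h3
  linarith [Real.add_one_le_exp (-δ)]

lemma prob_ge {α : ℝ} (hα : 0 < α) : ∃ δ c : ℝ, 0 < δ ∧ 0 < c ∧ ∀ n N : ℕ, 96 ≤ n →
    1 - (Nat.log 2 n + 2) * Real.exp (-(δ * N))
      - Real.exp (-(c * ((goodPrimes n).card / n) * N)) ≤ prob α n N := by
  classical
  obtain ⟨δ1, hδ1, hA⟩ := estA hα
  obtain ⟨c, hc, hB⟩ := estB hα
  obtain ⟨δ2, hδ2, hC⟩ := estC hα
  refine ⟨min δ1 δ2, c, lt_min hδ1 hδ2, hc, fun n N hn => ?_⟩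
  set I := (range (Nat.log 2 n + 1)).filter (fun i => 2 * 2 ^ i ≤ n) with hI
  set W : (Fin N → Perm (Fin n)) → ℝ := fun σ => ∏ i, ewens α (σ i) with hW
  have hW0 : ∀ σ, 0 ≤ W σ := fun σ => prod_nonneg fun i _ => ewens_nonneg hα _
  have hW1 : ∑ σ, W σ = 1 := by rw [← Fintype.sum_pow, sum_ewens_one hα, one_pow]
  have hh0 := hh_pos hα n
  let BA : ℕ → Multiset ℕ → Prop := fun j m => smallSum (min (2 * 2 ^ j) (n / 2 + 1)) m < 2 ^ j
  let BB : Multiset ℕ → Prop := fun m => ∃ p ∈ goodPrimes n, p ∈ m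
  let BC : Multiset ℕ → Prop := fun m => Odd (n + m.card)
  have eA : ∀ j ∈ I, ∑ σ, W σ * (if ∀ i, ¬ BA j (σ i).partition.parts then 1 else 0)
      ≤ Real.exp (-(min δ1 δ2 * N)) := by
    intro j hj
    have hj' := (mem_filter.1 hj).2
    have h2 : 1 ≤ 2 ^ j := Nat.one_le_two_pow
    apply all_fail hα n N (BA j)
    refine le_trans ?_ (hA n (2 ^ j) _ (by omega) h2 (by omega) (by omega) (by omega))
    gcongr
    exact min_le_left _ _
  have eB : ∑ σ, W σ * (if ∀ i, ¬ BB (σ i).partition.parts then 1 else 0)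
      ≤ Real.exp (-(c * ((goodPrimes n).card / n) * N)) := by
    apply all_fail hα n N BB
    apply hB n (goodPrimes n) (by omega)
    intro p hp
    have := (mem_filter.1 hp).2
    exact ⟨this.1.one_le, this.2.2⟩
  have eC : ∑ σ, W σ * (if ∀ i, ¬ BC (σ i).partition.parts then 1 else 0)
      ≤ Real.exp (-(min δ1 δ2 * N)) := by
    apply all_fail hα n N BC
    refine le_trans ?_ (hC n (by omega))
    gcongr
    exact min_le_right _ _
  have key : ∀ σ : Fin N → Perm (Fin n),
      W σ - ∑ j ∈ I, W σ * (if ∀ i, ¬ BA j (σ i).partition.parts then 1 else 0)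
        - W σ * (if ∀ i, ¬ BB (σ i).partition.parts then 1 else 0)
        - W σ * (if ∀ i, ¬ BC (σ i).partition.parts then 1 else 0)
        ≤ if InvGen σ then W σ else 0 := by
    intro σ
    have t0 : ∀ (P : Prop) [Decidable P], 0 ≤ W σ * (if P then 1 else 0) := fun P _ =>
      mul_nonneg (hW0 σ) (by split_ifs <;> norm_num)
    have t1 : 0 ≤ ∑ j ∈ I, W σ * (if ∀ i, ¬ BA j (σ i).partition.parts then 1 else 0) :=
      sum_nonneg fun j _ => t0 _
    have t2 : 0 ≤ W σ * (if ∀ i, ¬ BB (σ i).partition.parts then 1 else 0) := t0 _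
    have t3 : 0 ≤ W σ * (if ∀ i, ¬ BC (σ i).partition.parts then 1 else 0) := t0 _
    by_cases hgen : InvGen σ
    · rw [if_pos hgen]; linarith
    rw [if_neg hgen]
    by_cases c1 : ∃ j ∈ I, ∀ i, ¬ BA j (σ i).partition.parts
    · obtain ⟨j, hj, hj'⟩ := c1
      have := single_le_sum (f := fun j => W σ *
        (if ∀ i, ¬ BA j (σ i).partition.parts then (1 : ℝ) else 0))
        (fun j _ => t0 _) hj
      simp only [if_pos hj', mul_one] at this
      linarith
    by_cases c2 : ∀ i, ¬ BB (σ i).partition.parts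
    · rw [if_pos c2]; linarith
    by_cases c3 : ∀ i, ¬ BC (σ i).partition.parts
    · rw [if_pos c3]; linarith
    exfalso
    apply hgen
    intro τ
    have hpar : ∀ i, (τ i * σ i * (τ i)⁻¹).partition = (σ i).partition := fun i =>
      (Perm.partition_eq_of_isConj.1 (isConj_iff.2 ⟨τ i, rfl⟩)).symm
    push Not at c1 c2 c3
    apply closure_eq_top
    · intro k hk1 hk2
      rw [Fintype.card_fin] at hk2
      have a1 : 2 ^ Nat.log 2 k ≤ k := Nat.pow_log_le_self 2 (by omega)
      have a2 : k < 2 ^ (Nat.log 2 k + 1) := Nat.lt_pow_succ_log_self (by norm_num) k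
      have a3 : Nat.log 2 k ≤ Nat.log 2 n := Nat.log_mono_right (by omega)
      rw [pow_succ] at a2
      obtain ⟨i, hi⟩ := c1 (Nat.log 2 k) (mem_filter.2 ⟨mem_range.2 (by omega), by omega⟩)
      refine ⟨i, min (2 * 2 ^ Nat.log 2 k) (n / 2 + 1), by omega, ?_⟩
      rw [hpar]
      exact lt_of_lt_of_le hi a1
    · obtain ⟨i, p, hp, hi⟩ := c2
      have := (mem_filter.1 hp).2
      have hcard := Fintype.card_fin n
      refine ⟨i, p, this.1, by omega, by omega, ?_⟩
      rw [hpar]; exact hi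
    · obtain ⟨i, hi⟩ := c3
      refine ⟨i, ?_⟩
      rw [hpar]
      simpa only [Fintype.card_fin] using hi
  have hsum := sum_le_sum (s := univ) fun σ _ => key σ
  rw [sum_sub_distrib, sum_sub_distrib, sum_sub_distrib, hW1, sum_comm] at hsum
  have eA' := sum_le_sum eA
  rw [sum_const, nsmul_eq_mul] at eA'
  have hIc : (I.card : ℝ) ≤ Nat.log 2 n + 1 := by
    have : I.card ≤ Nat.log 2 n + 1 := (card_filter_le _ _).trans (card_range _).le
    exact_mod_cast this
  have := mul_le_mul_of_nonneg_right hIc (Real.exp_pos (-(min δ1 δ2 * N))).le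
  unfold prob
  linarith

/-- For every α > 0 and β > 0, the probability that ⌊β log n⌋ independent Ewens-α permutations
invariably generate the symmetric group stays bounded away from zero. -/
theorem result (α : ℝ) (hα : 0 < α) (β : ℝ) (hβ : 0 < β) :
    ∃ c : ℝ, 0 < c ∧ ∀ᶠ n : ℕ in atTop, c ≤ prob α n ⌊β * Real.log n⌋₊ := by
  obtain ⟨δ, c, hδ, hc, h⟩ := prob_ge hα
  set θ := Real.exp (-(c * β / 40)) with hθ
  have hθ1 : θ < 1 := Real.exp_lt_one_iff.2 (by
    have : 0 < c * β / 40 := by positivity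
    linarith)
  refine ⟨(1 - θ) / 2, by linarith, ?_⟩
  have hlog : Tendsto (fun n : ℕ => Real.log n) atTop atTop :=
    Real.tendsto_log_atTop.comp tendsto_natCast_atTop_atTop
  have hlim : Tendsto (fun x : ℝ => 4 * (x ^ (1 : ℝ) * Real.exp (-(δ * β / 2) * x))) atTop
      (nhds (4 * 0)) :=
    (tendsto_rpow_mul_exp_neg_mul_atTop_nhds_zero 1 _ (by positivity)).const_mul 4
  rw [mul_zero] at hlim
  have hev := (hlim.comp hlog).eventually (ge_mem_nhds (show 0 < (1 - θ) / 2 by linarith))
  filter_upwards [hev, eventually_goodPrimes, eventually_ge_atTop 96,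
    hlog.eventually_ge_atTop (2 / β), hlog.eventually_ge_atTop 1] with n h1 h2 h3 h4 h5
  refine le_trans ?_ (h n _ h3)
  set x := Real.log n with hx
  set N := ⌊β * x⌋₊ with hN
  have hn0 : (0 : ℝ) < n := by exact_mod_cast (by omega : 0 < n)
  have hN1 : β * x / 2 ≤ N := by
    have a1 := Nat.lt_floor_add_one (β * x)
    have a2 : 2 ≤ β * x := by rwa [div_le_iff₀' hβ] at h4
    linarith
  have b1 : (Nat.log 2 n : ℝ) + 2 ≤ 4 * x := by
    have a1 : ((2 ^ Nat.log 2 n : ℕ) : ℝ) ≤ n := by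
      exact_mod_cast Nat.pow_log_le_self 2 (by omega)
    have a2 := Real.log_le_log (by positivity) a1
    push_cast at a2
    rw [Real.log_pow] at a2
    have a3 := Real.log_two_gt_d9
    have a4 : (0 : ℝ) ≤ Nat.log 2 n := by positivity
    nlinarith
  have b2 : Real.exp (-(δ * N)) ≤ Real.exp (-(δ * β / 2) * x) := by
    apply Real.exp_le_exp.2
    nlinarith
  have b3 : Real.exp (-(c * ((goodPrimes n).card / n) * N)) ≤ θ := by
    apply Real.exp_le_exp.2
    have a1 : 1 / 20 ≤ ((goodPrimes n).card / n : ℝ) * x := by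
      rw [div_mul_eq_mul_div, le_div_iff₀ hn0]; exact h2
    have a2 : (0 : ℝ) ≤ (goodPrimes n).card / n := by positivity
    have a3 := mul_le_mul_of_nonneg_left hN1 a2
    have a4 : β / 40 ≤ ((goodPrimes n).card / n : ℝ) * N := by nlinarith
    nlinarith
  simp only [Function.comp, Real.rpow_one] at h1
  have b4 : ((Nat.log 2 n : ℝ) + 2) * Real.exp (-(δ * N))
      ≤ 4 * x * Real.exp (-(δ * β / 2) * x) :=
    mul_le_mul b1 b2 (Real.exp_pos _).le (by linarith)
  linarith

end Pool.Agent.Results.MP_afae70_pr.LogSuffices
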